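import Mathlib
import Pool.Agent.Q72.AL.Stm4

/-! Job SOB (34438) of project AL (helper72): the inequality `J_SOB` for exponential sums with a Lipschitz weight. -/

set_option autoImplicit false

open Complex MeasureTheory Filter Topology Set FourierTransform

namespace Pool.Agent.Q139.AL

noncomputable section

/-- the function `e^{-|x|}` -/
def ea (x : ℝ) : ℂ := ((Real.exp (-|x|) : ℝ) : ℂ)

theorem ea_cont : Continuous ea := by
  unfold ea
  fun_prop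

theorem ea_Ioi (y : ℝ) : IntegrableOn (fun v : ℝ => cexp (((-y * v : ℝ) : ℂ) * I) * ea v) (Ioi 0) ∧
    ∫ v in Ioi (0 : ℝ), cexp (((-y * v : ℝ) : ℂ) * I) * ea v = 1 / (1 + y * I) := by
  have hre : (-(1 + (y : ℂ) * I)).re < 0 := by simp
  have h : EqOn (fun v : ℝ => cexp (-(1 + (y : ℂ) * I) * v)) (fun v : ℝ => cexp (((-y * v : ℝ) : ℂ) * I) * ea v) (Ioi 0) := by
    intro v hv
    have hv' : 0 < v := hv
    simp only [ea, abs_of_pos hv', Complex.ofReal_exp, ← Complex.exp_add]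
    congr 1
    push_cast
    ring
  refine ⟨(integrableOn_exp_mul_complex_Ioi hre 0).congr_fun h measurableSet_Ioi, ?_⟩
  rw [← setIntegral_congr_fun measurableSet_Ioi h, integral_exp_mul_complex_Ioi hre, neg_div_neg_eq]
  simp

theorem ea_Iic (y : ℝ) : IntegrableOn (fun v : ℝ => cexp (((-y * v : ℝ) : ℂ) * I) * ea v) (Iic 0) ∧
    ∫ v in Iic (0 : ℝ), cexp (((-y * v : ℝ) : ℂ) * I) * ea v = 1 / (1 - y * I) := by
  have hre : 0 < (1 - (y : ℂ) * I).re := by simp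
  have h : EqOn (fun v : ℝ => cexp ((1 - (y : ℂ) * I) * v)) (fun v : ℝ => cexp (((-y * v : ℝ) : ℂ) * I) * ea v) (Iic 0) := by
    intro v hv
    have hv' : v ≤ 0 := hv
    simp only [ea, abs_of_nonpos hv', Complex.ofReal_exp, ← Complex.exp_add]
    congr 1
    push_cast
    ring
  refine ⟨(integrableOn_exp_mul_complex_Iic hre 0).congr_fun h measurableSet_Iic, ?_⟩
  rw [← setIntegral_congr_fun measurableSet_Iic h, integral_exp_mul_complex_Iic hre]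
  simp

theorem ea_all (y : ℝ) : Integrable (fun v : ℝ => cexp (((-y * v : ℝ) : ℂ) * I) * ea v) ∧
    ∫ v : ℝ, cexp (((-y * v : ℝ) : ℂ) * I) * ea v = ((2 / (1 + y ^ 2) : ℝ) : ℂ) := by
  have h1 := ea_Iic y
  have h2 := ea_Ioi y
  refine ⟨?_, ?_⟩
  · rw [← integrableOn_univ, ← Iic_union_Ioi (a := (0 : ℝ))]
    exact h1.1.union h2.1
  · rw [← intervalIntegral.integral_Iic_add_Ioi h1.1 h2.1, h1.2, h2.2]
    have e1 : (1 - (y : ℂ) * I) ≠ 0 := by
      intro h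
      have := congrArg Complex.re h
      simp at this
    have e2 : (1 + (y : ℂ) * I) ≠ 0 := by
      intro h
      have := congrArg Complex.re h
      simp at this
    have e3 : (1 + (y : ℂ) ^ 2) ≠ 0 := by
      have : (1 + (y : ℂ) ^ 2) = (1 - (y : ℂ) * I) * (1 + (y : ℂ) * I) := by
        ring_nf
        rw [I_sq]
        ring
      rw [this]
      exact mul_ne_zero e1 e2
    push_cast
    rw [div_add_div _ _ e1 e2, div_eq_div_iff (mul_ne_zero e1 e2) e3]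
    ring_nf
    rw [I_sq]
    ring

theorem ea_int : Integrable ea := by
  have h := (ea_all 0).1
  simpa using h

theorem ea_ft (w : ℝ) : 𝓕 ea w = ((2 / (1 + (2 * Real.pi * w) ^ 2) : ℝ) : ℂ) := by
  rw [Real.fourier_real_eq_integral_exp_smul, ← (ea_all (2 * Real.pi * w)).2]
  refine integral_congr_ae (Eventually.of_forall fun v => ?_)
  simp only [smul_eq_mul]
  congr 3
  push_cast
  ring

theorem int_inv : Integrable fun x : ℝ => (1 + x ^ 2)⁻¹ := integrable_inv_one_add_sq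

theorem ea_ft_int : Integrable (𝓕 ea) := by
  have h1 : 𝓕 ea = fun w : ℝ => ((2 / (1 + (2 * Real.pi * w) ^ 2) : ℝ) : ℂ) := funext ea_ft
  rw [h1]
  refine Integrable.ofReal ?_
  have h2 := (int_inv.comp_mul_left' (R := 2 * Real.pi) (by positivity)).const_mul 2
  refine h2.congr (Eventually.of_forall fun x => ?_)
  exact (div_eq_mul_inv _ _).symm

theorem ker_int (t : ℝ) : Integrable fun x : ℝ => (((1 + x ^ 2)⁻¹ : ℝ) : ℂ) * cexp (((t * x : ℝ) : ℂ) * I) := by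
  refine (int_inv.ofReal (𝕜 := ℂ)).mul_bdd (c := 1) ?_ (Eventually.of_forall fun x => ?_)
  · exact Continuous.aestronglyMeasurable (by fun_prop)
  · rw [Complex.norm_exp_ofReal_mul_I]

theorem ker (t : ℝ) : ∫ x : ℝ, (((1 + x ^ 2)⁻¹ : ℝ) : ℂ) * cexp (((t * x : ℝ) : ℂ) * I) = ((Real.pi * Real.exp (-|t|) : ℝ) : ℂ) := by
  have h1 : 𝓕⁻ (𝓕 ea) = ea := ea_cont.fourierInv_fourier_eq ea_int ea_ft_int
  have h2 : 𝓕⁻ (𝓕 ea) t = ea t := congrFun h1 t
  rw [Real.fourierInv_eq'] at h2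
  have h3 := MeasureTheory.Measure.integral_comp_mul_left (fun x : ℝ => (((1 + x ^ 2)⁻¹ : ℝ) : ℂ) * cexp (((t * x : ℝ) : ℂ) * I)) (2 * Real.pi)
  have h4 : ∫ v : ℝ, cexp (↑(2 * Real.pi * inner ℝ v t) * I) • 𝓕 ea v = 2 * ∫ x : ℝ, (((1 + (2 * Real.pi * x) ^ 2)⁻¹ : ℝ) : ℂ) * cexp (((t * (2 * Real.pi * x) : ℝ) : ℂ) * I) := by
    rw [← integral_const_mul]
    refine integral_congr_ae (Eventually.of_forall fun v => ?_)
    simp only [smul_eq_mul, ea_ft]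
    have : (2 * Real.pi * inner ℝ v t : ℝ) = t * (2 * Real.pi * v) := by
      simp
      ring
    rw [this]
    push_cast
    ring
  rw [h4, h3] at h2
  have hpi : 0 < 2 * Real.pi := by positivity
  rw [abs_of_pos (by positivity), Complex.real_smul] at h2
  have hpi' : (Real.pi : ℂ) ≠ 0 := by exact_mod_cast Real.pi_ne_zero
  unfold ea at h2
  push_cast at h2 ⊢
  field_simp at h2
  rw [← h2]
  refine integral_congr_ae (Eventually.of_forall fun v => ?_)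
  simp only
  rw [div_eq_mul_inv, mul_comm, mul_comm (v : ℂ) (t : ℂ)]

/-- the quadratic form of the kernel `e^{-|s-t|}` -/
def qf (b : ℝ → ℂ) (Z : Finset ℝ) : ℝ := ∑ s ∈ Z, ∑ t ∈ Z, (b s * (starRingEnd ℂ) (b t)).re * Real.exp (-|s - t|)

theorem qf_int (b : ℝ → ℂ) (Z : Finset ℝ) :
    ∫ x : ℝ, (1 + x ^ 2)⁻¹ * ‖∑ t ∈ Z, b t * cexp (((t * x : ℝ) : ℂ) * I)‖ ^ 2 = Real.pi * qf b Z := by
  have hpt : ∀ x : ℝ, (1 + x ^ 2)⁻¹ * ‖∑ t ∈ Z, b t * cexp (((t * x : ℝ) : ℂ) * I)‖ ^ 2 =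
      RCLike.re (∑ s ∈ Z, ∑ t ∈ Z, b s * (starRingEnd ℂ) (b t) *
        ((((1 + x ^ 2)⁻¹ : ℝ) : ℂ) * cexp ((((s - t) * x : ℝ) : ℂ) * I))) := by
    intro x
    have h1 : (((1 + x ^ 2)⁻¹ * ‖∑ t ∈ Z, b t * cexp (((t * x : ℝ) : ℂ) * I)‖ ^ 2 : ℝ) : ℂ) =
        ∑ s ∈ Z, ∑ t ∈ Z, b s * (starRingEnd ℂ) (b t) *
        ((((1 + x ^ 2)⁻¹ : ℝ) : ℂ) * cexp ((((s - t) * x : ℝ) : ℂ) * I)) := by
      rw [Complex.ofReal_mul, Complex.ofReal_pow, ← Complex.mul_conj', map_sum, Finset.sum_mul_sum, Finset.mul_sum]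
      refine Finset.sum_congr rfl fun s _ => ?_
      rw [Finset.mul_sum]
      refine Finset.sum_congr rfl fun t _ => ?_
      rw [map_mul, ← Complex.exp_conj, map_mul, Complex.conj_ofReal, Complex.conj_I]
      have : cexp ((((s - t) * x : ℝ) : ℂ) * I) = cexp (((s * x : ℝ) : ℂ) * I) * cexp (((t * x : ℝ) : ℂ) * -I) := by
        rw [← Complex.exp_add]
        congr 1
        push_cast
        ring
      rw [this]
      ring
    rw [← h1, RCLike.re_eq_complex_re, Complex.ofReal_re]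
  have hI : ∀ s ∈ Z, ∀ t ∈ Z, Integrable fun x : ℝ => b s * (starRingEnd ℂ) (b t) *
        ((((1 + x ^ 2)⁻¹ : ℝ) : ℂ) * cexp ((((s - t) * x : ℝ) : ℂ) * I)) :=
    fun s _ t _ => (ker_int (s - t)).const_mul _
  rw [integral_congr_ae (Eventually.of_forall hpt), integral_re (integrable_finsetSum _ fun s hs =>
    integrable_finsetSum _ fun t ht => hI s hs t ht), integral_finsetSum _ (fun s hs =>
    integrable_finsetSum _ fun t ht => hI s hs t ht)]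
  have h2 : ∑ s ∈ Z, ∫ x : ℝ, ∑ t ∈ Z, b s * (starRingEnd ℂ) (b t) *
        ((((1 + x ^ 2)⁻¹ : ℝ) : ℂ) * cexp ((((s - t) * x : ℝ) : ℂ) * I)) =
      ∑ s ∈ Z, ∑ t ∈ Z, b s * (starRingEnd ℂ) (b t) * ((Real.pi * Real.exp (-|s - t|) : ℝ) : ℂ) := by
    refine Finset.sum_congr rfl fun s hs => ?_
    rw [integral_finsetSum _ (fun t ht => hI s hs t ht)]
    refine Finset.sum_congr rfl fun t _ => ?_
    rw [integral_const_mul, ker]
  rw [h2]
  unfold qf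
  rw [map_sum, Finset.mul_sum]
  refine Finset.sum_congr rfl fun s _ => ?_
  rw [map_sum, Finset.mul_sum]
  refine Finset.sum_congr rfl fun t _ => ?_
  rw [RCLike.re_eq_complex_re, Complex.re_mul_ofReal]
  ring

/-- the projection on the point `a` -/
def BB (b : ℝ → ℂ) (Z : Finset ℝ) (a : ℝ) : ℂ := ∑ t ∈ Z, b t * ((Real.exp (-(t - a)) : ℝ) : ℂ)

theorem qf_insert (b : ℝ → ℂ) (Z : Finset ℝ) (a : ℝ) (ha : ∀ t ∈ Z, a < t) :
    qf b (insert a Z) = ‖b a + BB b Z a‖ ^ 2 + (qf b Z - ‖BB b Z a‖ ^ 2) := by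
  have hna : a ∉ Z := fun h => lt_irrefl a (ha a h)
  have h1 : ∑ t ∈ Z, (b a * (starRingEnd ℂ) (b t)).re * Real.exp (-|a - t|) = (b a * (starRingEnd ℂ) (BB b Z a)).re := by
    unfold BB
    rw [map_sum, Finset.mul_sum, Complex.re_sum]
    refine Finset.sum_congr rfl fun t ht => ?_
    rw [map_mul, Complex.conj_ofReal, ← mul_assoc, Complex.re_mul_ofReal, abs_sub_comm, abs_of_pos (sub_pos.2 (ha t ht))]
  have h2 : ∑ t ∈ Z, (b t * (starRingEnd ℂ) (b a)).re * Real.exp (-|t - a|) = (b a * (starRingEnd ℂ) (BB b Z a)).re := by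
    rw [← h1]
    refine Finset.sum_congr rfl fun t ht => ?_
    rw [abs_sub_comm]
    congr 1
    simp
    ring
  unfold qf
  rw [Finset.sum_insert hna]
  simp_rw [Finset.sum_insert hna]
  rw [Finset.sum_add_distrib, h1, h2, ← Complex.normSq_eq_norm_sq, ← Complex.normSq_eq_norm_sq, Complex.normSq_add,
    Complex.mul_conj]
  simp
  ring

/-- the sum without the projection -/
def SS (b g : ℝ → ℂ) (Z : Finset ℝ) (a : ℝ) : ℂ := ∑ t ∈ Z, b t * (g t - ((Real.exp (-(t - a)) : ℝ) : ℂ) * g a)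

theorem SS_eq (b g : ℝ → ℂ) (Z : Finset ℝ) (a : ℝ) : ∑ t ∈ Z, b t * g t = SS b g Z a + BB b Z a * g a := by
  unfold SS BB
  rw [Finset.sum_mul, ← Finset.sum_add_distrib]
  refine Finset.sum_congr rfl fun t _ => ?_
  ring

theorem BB_insert (b : ℝ → ℂ) (Z : Finset ℝ) (a a' : ℝ) (ha : ∀ t ∈ Z, a' < t) :
    BB b (insert a' Z) a = ((Real.exp (-(a' - a)) : ℝ) : ℂ) * (b a' + BB b Z a') := by
  have hna : a' ∉ Z := fun h => lt_irrefl a' (ha a' h)
  unfold BB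
  rw [Finset.sum_insert hna, mul_add, Finset.mul_sum, mul_comm (b a')]
  congr 1
  refine Finset.sum_congr rfl fun t _ => ?_
  have : Real.exp (-(t - a)) = Real.exp (-(a' - a)) * Real.exp (-(t - a')) := by
    rw [← Real.exp_add]
    congr 1
    ring
  rw [this]
  push_cast
  ring

theorem SS_insert (b g : ℝ → ℂ) (Z : Finset ℝ) (a a' : ℝ) (ha : ∀ t ∈ Z, a' < t) :
    SS b g (insert a' Z) a = SS b g Z a' + (b a' + BB b Z a') * (g a' - ((Real.exp (-(a' - a)) : ℝ) : ℂ) * g a) := by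
  have hna : a' ∉ Z := fun h => lt_irrefl a' (ha a' h)
  have h1 := SS_eq b g (insert a' Z) a
  have h2 := SS_eq b g Z a'
  rw [BB_insert b Z a a' ha, Finset.sum_insert hna, h2] at h1
  have h3 : SS b g (insert a' Z) a = b a' * g a' + (SS b g Z a' + BB b Z a' * g a') -
    ((Real.exp (-(a' - a)) : ℝ) : ℂ) * (b a' + BB b Z a') * g a := by
    rw [h1]
    ring
  rw [h3]
  ring

theorem cs2 (p q μ κ R r : ℝ) (hp : 0 ≤ p) (hq : 0 ≤ q) (hμ : 0 ≤ μ) (hκ : 0 ≤ κ) (hR : 0 ≤ R) (hr : 0 ≤ r)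
    (h1 : p ^ 2 ≤ μ * R) (h2 : q ^ 2 ≤ κ * r) : (p + q) ^ 2 ≤ (μ + κ) * (R + r) := by
  have h3 : (2 * (p * q)) ^ 2 ≤ (μ * r + κ * R) ^ 2 := by
    have h4 : p ^ 2 * q ^ 2 ≤ (μ * R) * (κ * r) := mul_le_mul h1 h2 (sq_nonneg _) (mul_nonneg hμ hR)
    nlinarith [sq_nonneg (μ * r - κ * R)]
  have h5 : 2 * (p * q) ≤ μ * r + κ * R := by
    exact le_of_sq_le_sq h3 (by positivity)
  nlinarith

/-- potential function -/
def ph (c x : ℝ) : ℝ := if x < c - 1 then 4 else if x ≤ c + 1 then c + 2 - x else 0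

theorem ph_nonneg (c x : ℝ) : 0 ≤ ph c x := by
  unfold ph
  split_ifs <;> linarith

theorem ph_le (c x : ℝ) : ph c x ≤ 4 := by
  unfold ph
  split_ifs <;> linarith

theorem ph_anti (c a a' : ℝ) (h : a < a') : ph c a' ≤ ph c a := by
  unfold ph
  split_ifs <;> linarith

theorem ph_step (c a a' : ℝ) (h : a < a') (h1 : |a - c| ≤ 1 ∨ |a' - c| ≤ 1) : min (a' - a) 1 ≤ ph c a - ph c a' := by
  have hm1 := min_le_left (a' - a) 1
  have hm2 := min_le_right (a' - a) 1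
  rcases h1 with h1 | h1 <;> rw [abs_le] at h1 <;> obtain ⟨h2, h3⟩ := h1 <;> unfold ph <;> split_ifs <;> linarith

theorem one_sub_exp (u : ℝ) (hu : 0 < u) : min u 1 / 2 ≤ 1 - Real.exp (-u) ^ 2 := by
  have h1 : Real.exp (-u) ^ 2 ≤ 1 / (1 + 2 * u) := by
    rw [← Real.exp_nat_mul, one_div, show ((2 : ℕ) : ℝ) * -u = -(2 * u) by push_cast; ring, Real.exp_neg]
    have := Real.add_one_le_exp (2 * u)
    exact inv_anti₀ (by linarith) (by linarith)
  have h2 : min u 1 / 2 ≤ 1 - 1 / (1 + 2 * u) := by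
    rw [le_sub_iff_add_le, ← le_sub_iff_add_le', div_le_iff₀ (by linarith)]
    rcases min_cases u 1 with ⟨h, h'⟩ | ⟨h, h'⟩ <;> rw [h] <;> nlinarith
  linarith

theorem step_bd (g : ℝ → ℂ) (A c a a' : ℝ) (hA : 0 ≤ A) (h : a < a') (ha : ‖g a‖ ≤ A) (ha' : ‖g a'‖ ≤ A)
    (hl : ‖g a - g a'‖ ≤ A * |a - a'|) (hz : 1 < |a - c| → g a = 0) (hz' : 1 < |a' - c| → g a' = 0) :
    ‖g a' - ((Real.exp (-(a' - a)) : ℝ) : ℂ) * g a‖ ^ 2 ≤
      8 * A ^ 2 * (ph c a - ph c a') * (1 - Real.exp (-(a' - a)) ^ 2) := by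
  set u := a' - a with hu
  have hu0 : 0 < u := sub_pos.2 h
  have hρ := one_sub_exp u hu0
  have hm0 : 0 < min u 1 := lt_min hu0 one_pos
  have hanti := ph_anti c a a' h
  by_cases h1 : |a - c| ≤ 1 ∨ |a' - c| ≤ 1
  · have h2 := ph_step c a a' h h1
    rw [← hu] at h2
    have h3 : ‖g a' - ((Real.exp (-u) : ℝ) : ℂ) * g a‖ ≤ 2 * A * min u 1 := by
      have hexp : 0 < Real.exp (-u) := Real.exp_pos _
      have hexp1 : Real.exp (-u) ≤ 1 := Real.exp_le_one_iff.2 (by linarith)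
      have hexp2 : 1 - u ≤ Real.exp (-u) := by have := Real.add_one_le_exp (-u); linarith
      rcases min_cases u 1 with ⟨hm, hm'⟩ | ⟨hm, hm'⟩ <;> rw [hm]
      · have e1 : g a' - ((Real.exp (-u) : ℝ) : ℂ) * g a = (g a' - g a) + ((1 - Real.exp (-u) : ℝ) : ℂ) * g a := by
          push_cast
          ring
        rw [e1]
        refine (norm_add_le _ _).trans ?_
        rw [norm_mul, Complex.norm_real, Real.norm_of_nonneg (by linarith), norm_sub_rev]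
        have e2 : |a - a'| = u := by rw [abs_sub_comm, abs_of_pos hu0]
        rw [e2] at hl
        have e3 : (1 - Real.exp (-u)) * ‖g a‖ ≤ u * A := mul_le_mul (by linarith) ha (norm_nonneg _) hu0.le
        linarith
      · refine (norm_sub_le _ _).trans ?_
        rw [norm_mul, Complex.norm_real, Real.norm_of_nonneg hexp.le]
        have e3 : Real.exp (-u) * ‖g a‖ ≤ 1 * A := mul_le_mul hexp1 ha (norm_nonneg _) zero_le_one
        linarith
    have h4 : ‖g a' - ((Real.exp (-u) : ℝ) : ℂ) * g a‖ ^ 2 ≤ (2 * A * min u 1) ^ 2 := pow_le_pow_left₀ (norm_nonneg _) h3 2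
    refine h4.trans ?_
    have h5 : min u 1 * (min u 1 / 2) ≤ (ph c a - ph c a') * (1 - Real.exp (-u) ^ 2) :=
      mul_le_mul h2 hρ (by positivity) (by linarith)
    have h6 : 0 ≤ 8 * A ^ 2 := by positivity
    calc (2 * A * min u 1) ^ 2 = 8 * A ^ 2 * (min u 1 * (min u 1 / 2)) := by ring
      _ ≤ 8 * A ^ 2 * ((ph c a - ph c a') * (1 - Real.exp (-u) ^ 2)) := mul_le_mul_of_nonneg_left h5 h6
      _ = _ := by ring
  · push Not at h1
    rw [hz h1.1, hz' h1.2]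
    simp only [mul_zero, sub_zero, norm_zero]
    have : 0 ≤ 1 - Real.exp (-u) ^ 2 := by
      have := hm0.le
      linarith
    have h7 : 0 ≤ ph c a - ph c a' := by linarith
    rw [zero_pow two_ne_zero]
    exact mul_nonneg (mul_nonneg (by positivity) h7) this

theorem main_ind (W : Finset ℝ) (b g : ℝ → ℂ) (A c : ℝ) (hA : 0 ≤ A) (h1 : ∀ t ∈ W, ‖g t‖ ≤ A)
    (h2 : ∀ s ∈ W, ∀ t ∈ W, ‖g s - g t‖ ≤ A * |s - t|) (h3 : ∀ t ∈ W, 1 < |t - c| → g t = 0) (Z : Finset ℝ) :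
    Z ⊆ W → ∀ a ∈ W, (∀ t ∈ Z, a < t) → 0 ≤ qf b Z - ‖BB b Z a‖ ^ 2 ∧
      ‖SS b g Z a‖ ^ 2 ≤ 8 * A ^ 2 * ph c a * (qf b Z - ‖BB b Z a‖ ^ 2) := by
  induction Z using Finset.induction_on_min with
  | empty => intro _ a _ _; simp [qf, BB, SS]
  | insert a' Z ha' ih =>
    intro hZ a ha hlt
    have ha'W : a' ∈ W := hZ (Finset.mem_insert_self _ _)
    have haa' : a < a' := hlt a' (Finset.mem_insert_self _ _)
    obtain ⟨ih1, ih2⟩ := ih (fun t ht => hZ (Finset.mem_insert_of_mem ht)) a' ha'W ha'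
    have hst := step_bd g A c a a' hA haa' (h1 a ha) (h1 a' ha'W) (h2 a ha a' ha'W) (h3 a ha) (h3 a' ha'W)
    rw [qf_insert b Z a' ha', BB_insert b Z a a' ha', SS_insert b g Z a a' ha']
    set ρ := Real.exp (-(a' - a)) with hρ
    have hρ0 : 0 < ρ := Real.exp_pos _
    have hρ1 := one_sub_exp (a' - a) (by linarith)
    rw [← hρ] at hρ1
    have hρ2 : 0 ≤ 1 - ρ ^ 2 := by
      have : 0 < min (a' - a) 1 := lt_min (by linarith) one_pos
      linarith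
    set x := b a' + BB b Z a' with hx
    set R := qf b Z - ‖BB b Z a'‖ ^ 2 with hR
    have e1 : ‖x‖ ^ 2 + R - ‖(ρ : ℂ) * x‖ ^ 2 = R + (1 - ρ ^ 2) * ‖x‖ ^ 2 := by
      rw [norm_mul, Complex.norm_real, Real.norm_of_nonneg hρ0.le]
      ring
    rw [e1]
    have e2 : 0 ≤ (1 - ρ ^ 2) * ‖x‖ ^ 2 := mul_nonneg hρ2 (sq_nonneg _)
    refine ⟨by linarith, ?_⟩
    have hanti := ph_anti c a a' haa'
    have e3 : (‖SS b g Z a'‖ + ‖x * (g a' - (ρ : ℂ) * g a)‖) ^ 2 ≤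
        (8 * A ^ 2 * ph c a' + 8 * A ^ 2 * (ph c a - ph c a')) * (R + (1 - ρ ^ 2) * ‖x‖ ^ 2) := by
      refine cs2 _ _ _ _ _ _ (norm_nonneg _) (norm_nonneg _) (mul_nonneg (by positivity) (ph_nonneg _ _))
        (mul_nonneg (by positivity) (by linarith)) ih1 e2 ih2 ?_
      rw [norm_mul, mul_pow]
      calc ‖x‖ ^ 2 * ‖g a' - (ρ : ℂ) * g a‖ ^ 2 ≤ ‖x‖ ^ 2 * (8 * A ^ 2 * (ph c a - ph c a') * (1 - ρ ^ 2)) :=
            mul_le_mul_of_nonneg_left hst (sq_nonneg _)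
        _ = _ := by ring
    have e4 : ‖SS b g Z a' + x * (g a' - (ρ : ℂ) * g a)‖ ^ 2 ≤ (‖SS b g Z a'‖ + ‖x * (g a' - (ρ : ℂ) * g a)‖) ^ 2 :=
      pow_le_pow_left₀ (norm_nonneg _) (norm_add_le _ _) 2
    refine e4.trans (e3.trans (le_of_eq ?_))
    ring

theorem fin_bd (b g : ℝ → ℂ) (A c : ℝ) (hA : 0 ≤ A) (W : Finset ℝ) (h1 : ∀ t ∈ W, ‖g t‖ ≤ A)
    (h2 : ∀ s ∈ W, ∀ t ∈ W, ‖g s - g t‖ ≤ A * |s - t|) (h3 : ∀ t ∈ W, 1 < |t - c| → g t = 0) :
    ‖∑ t ∈ W, b t * g t‖ ^ 2 ≤ 33 * A ^ 2 * qf b W := by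
  rcases W.eq_empty_or_nonempty with rfl | hne
  · simp [qf]
  · set a := W.min' hne with ha
    have haW : a ∈ W := W.min'_mem hne
    set Z := W.erase a with hZ
    have hlt : ∀ t ∈ Z, a < t := fun t ht => lt_of_le_of_ne (W.min'_le t (Finset.mem_of_mem_erase ht))
      (Finset.ne_of_mem_erase ht).symm
    have hW : W = insert a Z := (Finset.insert_erase haW).symm
    have hna : a ∉ Z := fun h => lt_irrefl a (hlt a h)
    obtain ⟨i1, i2⟩ := main_ind W b g A c hA h1 h2 h3 Z (Finset.erase_subset _ _) a haW hlt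
    have e0 : ∑ t ∈ W, b t * g t = SS b g Z a + (b a + BB b Z a) * g a := by
      rw [hW, Finset.sum_insert hna, SS_eq b g Z a]
      ring
    have e1 : qf b W = ‖b a + BB b Z a‖ ^ 2 + (qf b Z - ‖BB b Z a‖ ^ 2) := by
      conv_lhs => rw [hW]
      exact qf_insert b Z a hlt
    rw [e0, e1]
    have e3 : (‖SS b g Z a‖ + ‖(b a + BB b Z a) * g a‖) ^ 2 ≤
        (8 * A ^ 2 * ph c a + A ^ 2) * ((qf b Z - ‖BB b Z a‖ ^ 2) + ‖b a + BB b Z a‖ ^ 2) := by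
      refine cs2 _ _ _ _ _ _ (norm_nonneg _) (norm_nonneg _) (mul_nonneg (by positivity) (ph_nonneg _ _))
        (by positivity) i1 (by positivity) i2 ?_
      rw [norm_mul, mul_pow, mul_comm]
      exact mul_le_mul_of_nonneg_right (pow_le_pow_left₀ (norm_nonneg _) (h1 a haW) 2) (sq_nonneg _)
    have e4 : ‖SS b g Z a + (b a + BB b Z a) * g a‖ ^ 2 ≤ (‖SS b g Z a‖ + ‖(b a + BB b Z a) * g a‖) ^ 2 :=
      pow_le_pow_left₀ (norm_nonneg _) (norm_add_le _ _) 2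
    refine e4.trans (e3.trans ?_)
    have e5 : 8 * A ^ 2 * ph c a + A ^ 2 ≤ 33 * A ^ 2 := by
      have := ph_le c a
      nlinarith [sq_nonneg A]
    calc _ ≤ 33 * A ^ 2 * ((qf b Z - ‖BB b Z a‖ ^ 2) + ‖b a + BB b Z a‖ ^ 2) :=
          mul_le_mul_of_nonneg_right e5 (add_nonneg i1 (sq_nonneg _))
      _ = _ := by ring

theorem sob0 : ∃ C : ℝ, 0 < C ∧ ∀ (Z : Finset ℝ) (b g : ℝ → ℂ) (A c : ℝ), 0 ≤ A →
  (∀ t ∈ Z, ‖g t‖ ≤ A) → (∀ s ∈ Z, ∀ t ∈ Z, ‖g s - g t‖ ≤ A * |s - t|) →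
  (∀ t ∈ Z, 1 < |t - c| → g t = 0) →
  ‖∑ t ∈ Z, b t * g t‖ ^ 2 ≤
    C * A ^ 2 * ∫ x : ℝ, (1 + x ^ 2)⁻¹ * ‖∑ t ∈ Z, b t * cexp (((t * x : ℝ) : ℂ) * I)‖ ^ 2 := by
  refine ⟨33 / Real.pi, by positivity, fun Z b g A c hA h1 h2 h3 => ?_⟩
  rw [qf_int]
  refine (fin_bd b g A c hA Z h1 h2 h3).trans (le_of_eq ?_)
  field_simp

open Pool.Agent.Q72.AL in
/-- Job SOB of project AL: exponential sums with Lipschitz weights. -/
theorem sob : J_SOB := sob0

end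

end Pool.Agent.Q139.AL
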